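import Pool.Agent.U29.CY.Stm

set_option autoImplicit false

namespace Pool.Agent.U458.CY

open Finset MeasureTheory Filter Pool.Agent.U762.RP Pool.Agent.U29.CY

theorem t_LNG : S_LNG := by
  intro hPRB d m r ε K hDec B μ _ hLaw
  obtain ⟨M, C, lam, hM, hC, hl0, hl1, h⟩ := hDec (max B (d ^ K)) (le_max_right _ _)
  have hsum : ∑ u ∈ Icc (-((max B (d ^ K) : ℕ) : ℤ)) ((max B (d ^ K) : ℕ) : ℤ), μ.real {u} ≤ 1 := by
    have h1 : μ.real (↑(Icc (-((max B (d ^ K) : ℕ) : ℤ)) ((max B (d ^ K) : ℕ) : ℤ)) : Set ℤ) =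
        ∑ u ∈ Icc (-((max B (d ^ K) : ℕ) : ℤ)) ((max B (d ^ K) : ℕ) : ℤ), μ.real {u} := by
      rw [sum_measureReal_singleton]
    rw [← h1]
    exact measureReal_le_one
  have hd := h (fun u => μ.real {u}) (fun u => measureReal_nonneg) hsum hLaw.mass
  have hbdd : μ {u : ℤ | ((max B (d ^ K) : ℕ) : ℤ) < |u|} = 0 := by
    refine measure_mono_null (fun u hu => ?_) hLaw.bdd
    have hu' : ((max B (d ^ K) : ℕ) : ℤ) < |u| := hu
    show (B : ℤ) < |u|
    exact lt_of_le_of_lt (Nat.cast_le.2 (le_max_left _ _)) hu'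
  refine ⟨M, C, lam, hM, hC, hl0, hl1, fun L x => ?_⟩
  refine (hPRB d m r μ (max B (d ^ K)) hbdd M L x).trans ?_
  exact ENNReal.ofReal_le_ofReal (hd L x)

end Pool.Agent.U458.CY
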